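import Pool.Agent.N809.BP.Final

/-!
# Sign pattern of the real powers of the infinite Borwein product

Question Q1 of the problem, proved in the positive: for every real `d` in
`[(9 - √73)/2, 1] ∪ [2, 3]` the coefficients `c n` of the power series of
`(∏ (1 - q^(3k+1)) (1 - q^(3k+2)))^d` satisfy `c (3m) ≥ 0`, `c (3m+1) ≤ 0`, `c (3m+2) ≤ 0`.

The proof has three parts: a circle method estimate with an explicit error term (from the invariance
of `|q^(1/12) ∏ (1 - q^(3k+1)) (1 - q^(3k+2))|`-type quantities under `SL(2, Z)`), uniform in `d`,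
for all large `n` (including the degenerate class `2` near `d = 3`, where the coefficients vanish at
`d = 3` by Jacobi's identity); a finite computation with rational error bounds for the remaining `n`;
and the first six coefficients, by hand.
-/

set_option autoImplicit false

namespace Pool.Agent.Results.MP_067a7d_co.BorweinRealPowers

open Pool.Agent.N809.BP Pool.Agent.N809.DA

/-- For every real `d` in `[(9 - √73)/2, 1] ∪ [2, 3]` the power series expansion
`∑ c n q^n` of `(∏_{k ≥ 0} (1 - q^(3k+1)) (1 - q^(3k+2)))^d` has the sign pattern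
`c (3m) ≥ 0`, `c (3m+1) ≤ 0`, `c (3m+2) ≤ 0`. -/
theorem result (d : ℝ) (hd : d ∈ Set.Icc ((9 - Real.sqrt 73) / 2) 1 ∪ Set.Icc 2 3) :
    ∃ c : ℕ → ℝ,
      (∀ q : ℝ, |q| < 1 → HasSum (fun n => c n * q ^ n)
        ((∏' k : ℕ, (1 - q ^ (3 * k + 1)) * (1 - q ^ (3 * k + 2))) ^ d)) ∧
      ∀ m : ℕ, 0 ≤ c (3 * m) ∧ c (3 * m + 1) ≤ 0 ∧ c (3 * m + 2) ≤ 0 := by
  have hD : Dom d := by
    rcases hd with h | h
    · exact Or.inl h
    · exact Or.inr h
  refine ⟨cf d, fun q hq => ?_, fun m => ⟨?_, ?_, ?_⟩⟩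
  · have hz : ‖(q : ℂ)‖ < 1 := by rwa [Complex.norm_real, Real.norm_eq_abs]
    have h1 := hasSum_gb d hz
    have h2 : gb d (q : ℂ) =
        (((∏' k : ℕ, (1 - q ^ (3 * k + 1)) * (1 - q ^ (3 * k + 2))) ^ d : ℝ) : ℂ) := by
      rw [borwein_real hq, ← Real.exp_mul, Complex.ofReal_exp, gb]
      congr 1
      rw [← Complex.ofReal_pow, psi_ofReal, psi_ofReal]
      push_cast
      ring
    rw [h2] at h1
    have h3 : (fun n : ℕ => (cf d n : ℂ) * (q : ℂ) ^ n) = fun n : ℕ => ((cf d n * q ^ n : ℝ) : ℂ) := by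
      funext n
      push_cast
      rfl
    rw [h3] at h1
    exact Complex.hasSum_ofReal.mp h1
  · exact (good_all hD (3 * m)).1 (by omega)
  · exact (good_all hD (3 * m + 1)).2 (by omega)
  · exact (good_all hD (3 * m + 2)).2 (by omega)

end Pool.Agent.Results.MP_067a7d_co.BorweinRealPowers
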